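import Pool.Agent.Helper61.ZZ.ZS

set_option autoImplicit false

/-!
# Packet ZALL: the decomposition into legs
-/

open Finset
open Pool.Agent.Helper99.ZZ

namespace Pool.Agent.Helper61.ZZ

theorem neg_sn_fun (h : ℕ → ℤ) (a i : ℕ) :
    (fun u => - (sn a i * h u)) = fun u => sn a (i + 1) * h u := by
  funext u
  rw [sn_succ]
  ring

theorem zd_single {h : ℕ → ℤ} {n : ℕ} {t : ℤ} {a m M : ℕ} (hM : M ≤ n) (hTS : TS h n t = ∅)
    (h1 : Up (fun u => sn a 0 * h u) t m M)
    (h2 : ∀ u, m ≤ u → u < M → sn a 0 * h u < sn a 0 * h M)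
    (h3 : ∀ u, u ≤ m → sn a 0 * h m ≤ sn a 0 * h u ∧ sn a 0 * h u < sn a 0 * h m + t)
    (h4 : ∀ u, M ≤ u → u ≤ n → sn a 0 * h u ≤ sn a 0 * h M ∧ sn a 0 * h M < sn a 0 * h u + t) :
    ZD h n t a 1 (fun i => if i = 0 then m else M) where
  pos := le_rfl
  le := by simpa using hM
  up := by
    intro i hi
    obtain rfl : i = 0 := by omega
    simpa using h1
  last := by simpa using h2
  pre := by simpa using h3
  post := by simpa using h4
  ext := by simpa using hTS
  mm := by
    intro i h5 h6
    omega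

theorem ZALL (hZC : ZC_stmt) (hZF : ZF_stmt) (hZL : ZL_stmt) (hZE : ZE_stmt) : ZALL_stmt := by
  classical
  intro h n t u u' ht hu hu' hr
  rcases (TS h n t).eq_empty_or_nonempty with hTS | hTS
  · rcases lt_trichotomy u u' with hlt | heq | hgt
    · obtain ⟨m, M, k1, k2, k3, k4, k5⟩ := hZE h n t u u' ht hTS hlt hu' hr
      have hs : sn 0 0 = 1 := by simp [sn]
      refine ⟨0, 1, _, zd_single (m := m) (M := M) k1 hTS ?_ ?_ ?_ ?_⟩
      · rw [hs]
        simpa using k2
      · rw [hs]
        simpa using k3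
      · rw [hs]
        simpa using k4
      · rw [hs]
        simpa using k5
    · rw [heq] at hr
      omega
    · obtain ⟨m, M, k1, k2, k3, k4, k5⟩ := hZE (fun u => - h u) n t u' u ht
        (by rw [TS_neg]; exact hTS) hgt hu (by omega)
      have hs : ∀ v, sn 1 0 * h v = - h v := by
        intro v
        simp [sn]
      refine ⟨1, 1, _, zd_single (m := m) (M := M) k1 hTS ?_ ?_ ?_ ?_⟩
      · have : (fun u => sn 1 0 * h u) = fun u => - h u := funext hs
        rw [this]
        exact k2
      · intro v h1 h2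
        rw [hs, hs]
        exact k3 v h1 h2
      · intro v h1
        rw [hs, hs]
        exact k4 v h1
      · intro v h1 h2
        rw [hs, hs]
        exact k5 v h1 h2
  · set T := TS h n t with hT
    set k := T.card with hk
    have hk0 : 0 < k := card_pos.2 hTS
    let e : Fin k ↪o ℕ := T.orderEmbOfFin rfl
    have heT : ∀ i, e i ∈ T := fun i => orderEmbOfFin_mem T rfl i
    have hrange : ∀ y ∈ T, ∃ i, e i = y := by
      intro y hy
      have h1 : Set.range e = (T : Set ℕ) := range_orderEmbOfFin T rfl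
      have h2 : y ∈ Set.range e := by
        rw [h1]
        exact hy
      exact h2
    -- the sign
    obtain ⟨a, ha⟩ : ∃ a, TMin (fun u => sn a 1 * h u) n t (e ⟨0, hk0⟩) := by
      rcases mem_TS.1 (heT ⟨0, hk0⟩) with h1 | h1
      · refine ⟨1, ?_⟩
        have : (fun u => sn 1 1 * h u) = h := by
          funext v
          simp [sn]
        rw [this]
        exact h1
      · refine ⟨0, ?_⟩
        have : (fun u => sn 0 1 * h u) = fun u => - h u := by
          funext v
          simp [sn]
        rw [this]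
        exact h1
    have hbet : ∀ (i : ℕ) (h1 : i + 1 < k) (y : ℕ), e ⟨i, by omega⟩ < y → y < e ⟨i + 1, h1⟩ →
        y ∉ T := by
      intro i h1 y h2 h3 hy
      obtain ⟨j, rfl⟩ := hrange y hy
      rw [e.lt_iff_lt, Fin.lt_def] at h2 h3
      simp only at h2 h3
      omega
    have hstep : ∀ (i : ℕ) (h1 : i + 1 < k),
        TMin (fun u => sn a (i + 1) * h u) n t (e ⟨i, by omega⟩) →
        TMin (fun u => sn a (i + 1 + 1) * h u) n t (e ⟨i + 1, h1⟩) ∧
        Up (fun u => sn a (i + 1) * h u) t (e ⟨i, by omega⟩) (e ⟨i + 1, h1⟩) := by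
      intro i h1 h2
      have h3 := ZC_min ht h2 (z' := e ⟨i + 1, h1⟩) (by rw [TS_sn]; exact heT _)
        (e.lt_iff_lt.2 (by rw [Fin.lt_def]; simp only; omega))
        (fun y k1 k2 => by rw [TS_sn]; exact hbet i h1 y k1 k2)
      rw [neg_sn_fun] at h3
      exact h3
    have hmin : ∀ (i : ℕ) (h1 : i < k), TMin (fun u => sn a (i + 1) * h u) n t (e ⟨i, h1⟩) := by
      intro i
      induction i with
      | zero => exact fun _ => ha
      | succ i ih => exact fun h1 => (hstep i h1 (ih (by omega))).1
    -- the first leg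
    obtain ⟨m, hm1, hm2⟩ := hZF (fun u => sn a 0 * h u) n t (e ⟨0, hk0⟩) ht
      (by
        rw [neg_sn_fun]
        exact ha)
      (by
        intro y hy
        rw [TS_sn]
        intro hyT
        obtain ⟨j, rfl⟩ := hrange y hyT
        rw [e.lt_iff_lt, Fin.lt_def] at hy
        simp only at hy
        omega)
    -- the last leg
    have hk1 : k - 1 < k := by omega
    have hlast := hmin (k - 1) hk1
    rw [show k - 1 + 1 = k by omega] at hlast
    obtain ⟨M, hM1, hM2, hM3, hM4⟩ := hZL (fun u => sn a k * h u) n t (e ⟨k - 1, hk1⟩) ht hlast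
      (by
        intro y hy _
        rw [TS_sn]
        intro hyT
        obtain ⟨j, rfl⟩ := hrange y hyT
        rw [e.lt_iff_lt, Fin.lt_def] at hy
        simp only at hy
        have := j.2
        omega)
    let g : ℕ → ℕ := fun i => if h1 : i < k then e ⟨i, h1⟩ else M
    let z : ℕ → ℕ := fun i => if i = 0 then m else g (i - 1)
    have hz0 : z 0 = m := rfl
    have hz1 : ∀ (j : ℕ) (hj : j < k), z (j + 1) = e ⟨j, hj⟩ := by
      intro j hj
      simp only [z, g, Nat.add_eq_zero_iff, one_ne_zero, and_false, if_false,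
        Nat.add_sub_cancel, hj, dif_pos]
    have hzK : z (k + 1) = M := by
      simp only [z, g, Nat.add_eq_zero_iff, one_ne_zero, and_false, if_false,
        Nat.add_sub_cancel, lt_irrefl, dif_neg, not_false_eq_true]
    have hzk : z k = e ⟨k - 1, hk1⟩ := by
      have := hz1 (k - 1) hk1
      rwa [show k - 1 + 1 = k by omega] at this
    refine ⟨a, k + 1, z, ⟨by omega, ?_, ?_, ?_, ?_, ?_, ?_, ?_⟩⟩
    · rw [hzK]
      exact hM1
    · intro i hi
      rcases Nat.eq_zero_or_pos i with h0 | h0
      · subst h0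
        rw [hz0, hz1 0 hk0]
        exact hm1
      · obtain ⟨j, rfl⟩ : ∃ j, i = j + 1 := ⟨i - 1, by omega⟩
        have hj : j < k := by omega
        rw [hz1 j hj]
        rcases Nat.lt_or_ge (j + 1) k with h1 | h1
        · rw [hz1 (j + 1) h1]
          exact (hstep j h1 (hmin j hj)).2
        · have hjk : j + 1 = k := by omega
          have h2 : z (j + 1 + 1) = M := by rw [hjk, hzK]
          rw [h2]
          have h3 : (⟨j, hj⟩ : Fin k) = ⟨k - 1, hk1⟩ := by
            apply Fin.ext
            simp only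
            omega
          rw [h3, hjk]
          exact hM2
    · rw [Nat.add_sub_cancel, hzk, hzK]
      exact hM3
    · rw [hz0]
      exact hm2
    · rw [Nat.add_sub_cancel, hzK]
      exact hM4
    · ext y
      rw [mem_image]
      constructor
      · intro hy
        obtain ⟨j, rfl⟩ := hrange y hy
        exact ⟨(j : ℕ) + 1, mem_Ico.2 ⟨by omega, by omega⟩, hz1 j j.2⟩
      · rintro ⟨i, hi, rfl⟩
        rw [mem_Ico] at hi
        obtain ⟨j, rfl⟩ : ∃ j, i = j + 1 := ⟨i - 1, by omega⟩
        rw [hz1 j (by omega)]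
        exact heT _
    · intro i h1 h2
      obtain ⟨j, rfl⟩ : ∃ j, i = j + 1 := ⟨i - 1, by omega⟩
      rw [hz1 j (by omega)]
      exact hmin j (by omega)

end Pool.Agent.Helper61.ZZ
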