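import Pool.Agent.Helper99.ZZ.Zig

set_option autoImplicit false

/-!
# Extrema at the scale `t` of a sequence of heights (packets ZC, ZL, ZE)
-/

open Finset
open Pool.Agent.Helper99.ZZ

namespace Pool.Agent.Helper61.ZZ

/-- The last maximum. -/
theorem lastMax (h : ℕ → ℤ) {a b : ℕ} (hab : a ≤ b) :
    ∃ m, a ≤ m ∧ m ≤ b ∧ (∀ u, a ≤ u → u ≤ b → h u ≤ h m) ∧ ∀ u, m < u → u ≤ b → h u < h m := by
  induction b, hab using Nat.le_induction with
  | base =>
    refine ⟨a, le_rfl, le_rfl, fun u h1 h2 => ?_, fun u h1 h2 => ?_⟩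
    · rw [le_antisymm h2 h1]
    · omega
  | succ b hab ih =>
    obtain ⟨m, h1, h2, h3, h4⟩ := ih
    by_cases hb : h m ≤ h (b + 1)
    · refine ⟨b + 1, by omega, le_rfl, fun u h5 h6 => ?_, fun u h5 h6 => by omega⟩
      rcases Nat.lt_or_ge b u with h7 | h7
      · rw [show u = b + 1 by omega]
      · exact (h3 u h5 h7).trans hb
    · push Not at hb
      refine ⟨m, h1, by omega, fun u h5 h6 => ?_, fun u h5 h6 => ?_⟩
      · rcases Nat.lt_or_ge b u with h7 | h7
        · rw [show u = b + 1 by omega]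
          exact hb.le
        · exact h3 u h5 h7
      · rcases Nat.lt_or_ge b u with h7 | h7
        · rw [show u = b + 1 by omega]
          exact hb
        · exact h4 u h5 h7

/-- The first maximum. -/
theorem firstMax (h : ℕ → ℤ) {a b : ℕ} (hab : a ≤ b) :
    ∃ m, a ≤ m ∧ m ≤ b ∧ (∀ u, a ≤ u → u ≤ b → h u ≤ h m) ∧ ∀ u, a ≤ u → u < m → h u < h m := by
  induction b, hab using Nat.le_induction with
  | base =>
    refine ⟨a, le_rfl, le_rfl, fun u h1 h2 => ?_, fun u h1 h2 => ?_⟩
    · rw [le_antisymm h2 h1]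
    · omega
  | succ b hab ih =>
    obtain ⟨m, h1, h2, h3, h4⟩ := ih
    by_cases hb : h (b + 1) ≤ h m
    · refine ⟨m, h1, by omega, fun u h5 h6 => ?_, h4⟩
      rcases Nat.lt_or_ge b u with h7 | h7
      · rw [show u = b + 1 by omega]
        exact hb
      · exact h3 u h5 h7
    · push Not at hb
      refine ⟨b + 1, by omega, le_rfl, fun u h5 h6 => ?_, fun u h5 h6 => ?_⟩
      · rcases Nat.lt_or_ge b u with h7 | h7
        · rw [show u = b + 1 by omega]
        · exact (h3 u h5 h7).trans hb.le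
      · exact (h3 u h5 (by omega)).trans_lt hb

theorem tmin_le {h : ℕ → ℤ} {n : ℕ} {t : ℤ} {z : ℕ} (hz : TMin h n t z) : z ≤ n := by
  obtain ⟨s, s', h1, h2, h3, -⟩ := hz
  omega

theorem mem_TS {h : ℕ → ℤ} {n : ℕ} {t : ℤ} {z : ℕ} :
    z ∈ TS h n t ↔ TMin h n t z ∨ TMin (fun u => - h u) n t z := by
  classical
  unfold TS
  rw [mem_filter, mem_range]
  constructor
  · exact fun h => h.2
  · intro h
    refine ⟨?_, h⟩
    rcases h with h | h
    · have := tmin_le h
      omega
    · have := tmin_le h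
      omega

theorem TS_neg (h : ℕ → ℤ) (n : ℕ) (t : ℤ) : TS (fun u => - h u) n t = TS h n t := by
  ext z
  rw [mem_TS, mem_TS]
  simp only [neg_neg]
  exact or_comm

/-- What comes after a minimum. -/
theorem next_of_min {h : ℕ → ℤ} {n : ℕ} {t : ℤ} {z : ℕ} (ht : 1 ≤ t) (hz : TMin h n t z) :
    ((∀ y, z < y → y ≤ n → y ∉ TS h n t) ∧
      (∀ u u', z ≤ u → u ≤ u' → u' ≤ n → h u - h u' < t) ∧ (∀ y, z < y → y ≤ n → h z < h y)) ∨
    ∃ z'', TMin (fun u => - h u) n t z'' ∧ Up h t z z'' ∧
      ∀ y, z < y → y < z'' → y ∉ TS h n t := by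
  classical
  obtain ⟨s, q, hsz, hzq, hqn, hs1, hq1, hs2, hq2⟩ := id hz
  -- above `z` as long as there is no drop
  have habove : ∀ b, (∀ u u', z ≤ u → u ≤ u' → u' ≤ b → h u - h u' < t) →
      ∀ y, z < y → y ≤ b → h z < h y := by
    intro b hb y h1 h2
    rcases Nat.lt_or_ge q y with h3 | h3
    · have := hb q y hzq.le h3.le h2
      omega
    · exact hq2 y h1 h3
  have hnomin : ∀ b, (∀ u u', z ≤ u → u ≤ u' → u' ≤ b → h u - h u' < t) →
      ∀ y, z < y → y ≤ b → ¬ TMin h n t y := by
    rintro b hb y h1 h2 ⟨s0, s0', k1, k2, k3, k4, k5, k6, k7⟩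
    have h3 := habove b hb y h1 h2
    rcases Nat.lt_or_ge s0 z with h4 | h4
    · have := k6 z h4.le h1.le
      omega
    · have := hb s0 y h4 k1.le h2
      omega
  by_cases hD : ∃ i, i ≤ n ∧ ∃ u, z ≤ u ∧ u ≤ i ∧ t ≤ h u - h i
  · right
    obtain ⟨hin, u0, hu1, hu2, hu3⟩ := Nat.find_spec hD
    set i := Nat.find hD with hi
    have hmin : ∀ u u', z ≤ u → u ≤ u' → u' ≤ i - 1 → h u - h u' < t := by
      intro u u' h1 h2 h3
      by_contra hcon
      push Not at hcon
      have hi0 : z < i := by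
        rcases Nat.eq_or_lt_of_le (hu1.trans hu2) with h4 | h4
        · have : u0 = i := by omega
          rw [this] at hu3
          omega
        · exact h4
      exact Nat.find_min hD (m := u') (by omega) ⟨by omega, u, h1, h2, hcon⟩
    have hzi : z < i := by
      rcases Nat.eq_or_lt_of_le (hu1.trans hu2) with h4 | h4
      · have : u0 = i := by omega
        rw [this] at hu3
        omega
      · exact h4
    obtain ⟨m, m1, m2, m3, m4⟩ := lastMax h hzi.le
    have hmi : h i + t ≤ h m := by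
      have := m3 u0 hu1 hu2
      omega
    have hmz : h z + t ≤ h m := by
      rcases Nat.lt_or_ge q i with h4 | h4
      · have := m3 q hzq.le h4.le
        omega
      · have := hq2 i hzi h4
        omega
    have hzm : z < m := by
      rcases Nat.eq_or_lt_of_le m1 with h4 | h4
      · rw [← h4] at hmz
        omega
      · exact h4
    have hmi' : m < i := by
      rcases Nat.eq_or_lt_of_le m2 with h4 | h4
      · rw [h4] at hmi
        omega
      · exact h4
    refine ⟨m, ⟨z, i, hzm, hmi', hin, ?_, ?_, ?_, ?_⟩, ⟨hzm, ?_, ?_, hmz, ?_⟩, ?_⟩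
    · simp only
      omega
    · simp only
      omega
    · intro u h1 h2
      have := m3 u h1 (by omega)
      simp only
      omega
    · intro u h1 h2
      have := m4 u h1 h2
      simp only
      omega
    · intro u h1 h2
      exact habove (i - 1) hmin u h1 (by omega)
    · intro u h1 h2
      exact m3 u h1 (by omega)
    · intro u u' h1 h2 h3
      exact hmin u u' h1 h2 (by omega)
    · intro y h1 h2 hy
      rw [mem_TS] at hy
      rcases hy with hy | ⟨s0, s0', k1, k2, k3, k4, k5, k6, k7⟩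
      · exact hnomin (i - 1) hmin y h1 (by omega) hy
      · rcases Nat.lt_or_ge s0' i with h3 | h3
        · have := hmin y s0' h1.le k2.le (by omega)
          simp only at k5
          omega
        · have := k7 m h2 (by omega)
          have := m3 y h1.le (by omega)
          simp only at *
          omega
  · left
    push Not at hD
    have hND : ∀ u u', z ≤ u → u ≤ u' → u' ≤ n → h u - h u' < t := by
      intro u u' h1 h2 h3
      exact hD u' h3 u h1 h2
    refine ⟨?_, hND, habove n hND⟩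
    intro y h1 h2 hy
    rw [mem_TS] at hy
    rcases hy with hy | ⟨s0, s0', k1, k2, k3, k4, k5, k6, k7⟩
    · exact hnomin n hND y h1 h2 hy
    · have := hND y s0' h1.le k2.le k3
      simp only at k5
      omega

theorem ZC_min {h : ℕ → ℤ} {n : ℕ} {t : ℤ} {z z' : ℕ} (ht : 1 ≤ t) (hz : TMin h n t z)
    (hz' : z' ∈ TS h n t) (hlt : z < z') (hno : ∀ y, z < y → y < z' → y ∉ TS h n t) :
    TMin (fun u => - h u) n t z' ∧ Up h t z z' := by
  rcases next_of_min ht hz with ⟨h1, -, -⟩ | ⟨z'', h1, h2, h3⟩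
  · exfalso
    refine h1 z' hlt ?_ hz'
    rcases mem_TS.1 hz' with h | h
    · exact tmin_le h
    · exact tmin_le h
  · have h4 : z'' ∈ TS h n t := mem_TS.2 (Or.inr h1)
    have h5 : z' = z'' := by
      rcases lt_trichotomy z' z'' with h6 | h6 | h6
      · exact absurd hz' (h3 z' hlt h6)
      · exact h6
      · exact absurd h4 (hno z'' h2.lt h6)
    rw [h5]
    exact ⟨h1, h2⟩

theorem ZC : ZC_stmt := by
  intro h n t z z' ht hz hz' hlt hno
  rcases mem_TS.1 hz with h1 | h1
  · exact Or.inl ⟨h1, ZC_min ht h1 hz' hlt hno⟩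
  · right
    have h2 := ZC_min (h := fun u => - h u) ht h1 (by rw [TS_neg]; exact hz') hlt
      (fun y h3 h4 => by rw [TS_neg]; exact hno y h3 h4)
    simp only [neg_neg] at h2
    exact ⟨h1, h2.1, h2.2⟩

end Pool.Agent.Helper61.ZZ
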