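import Pool.Agent.Helper61.ZZ.ZC

set_option autoImplicit false

/-!
# No extremum (packet ZE)
-/

open Finset
open Pool.Agent.Helper99.ZZ

namespace Pool.Agent.Helper61.ZZ

/-- If the first rise comes before the first drop there is a maximum. -/
theorem max_of_rise_drop {h : ℕ → ℤ} {n : ℕ} {t : ℤ} (ht : 1 ≤ t) {i j v w : ℕ} (hji : j < i)
    (hin : i ≤ n) (hv : v ≤ j) (hr : h v + t ≤ h j) (hw : w ≤ i) (hd : t ≤ h w - h i)
    (hno : ∀ u u', u ≤ u' → u' < i → h u - h u' < t) : ∃ z, TMin (fun u => - h u) n t z := by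
  obtain ⟨m, -, m2, m3, m4⟩ := lastMax (fun u => - h u) (Nat.zero_le j)
  have hmj : h m + t ≤ h j := by
    have := m3 v (Nat.zero_le _) hv
    omega
  obtain ⟨z, z1, z2, z3, z4⟩ := lastMax h (show m ≤ i by omega)
  have hzm : h m + t ≤ h z := hmj.trans (z3 j m2 hji.le)
  have hzi : h i + t ≤ h z := by
    rcases Nat.lt_or_ge w m with h1 | h1
    · have := hno w m h1.le (by omega)
      omega
    · have := z3 w h1 hw
      omega
  refine ⟨z, m, i, ?_, ?_, hin, ?_, ?_, ?_, ?_⟩
  · rcases Nat.eq_or_lt_of_le z1 with h1 | h1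
    · rw [← h1] at hzm
      omega
    · exact h1
  · rcases Nat.eq_or_lt_of_le z2 with h1 | h1
    · rw [h1] at hzi
      omega
    · exact h1
  · simp only
    omega
  · simp only
    omega
  · intro u h1 h2
    have := z3 u h1 (by omega)
    simp only
    omega
  · intro u h1 h2
    have := z4 u h1 h2
    simp only
    omega

/-- A rise and a drop give an extremum. -/
theorem ext_of_rise_drop {h : ℕ → ℤ} {n : ℕ} {t : ℤ} (ht : 1 ≤ t)
    (hr : ∃ u u', u ≤ u' ∧ u' ≤ n ∧ h u + t ≤ h u')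
    (hd : ∃ u u', u ≤ u' ∧ u' ≤ n ∧ h u' + t ≤ h u) : TS h n t ≠ ∅ := by
  classical
  have hR : ∃ j, j ≤ n ∧ ∃ v, v ≤ j ∧ h v + t ≤ h j := by
    obtain ⟨u, u', h1, h2, h3⟩ := hr
    exact ⟨u', h2, u, h1, h3⟩
  have hD : ∃ i, i ≤ n ∧ ∃ v, v ≤ i ∧ h i + t ≤ h v := by
    obtain ⟨u, u', h1, h2, h3⟩ := hd
    exact ⟨u', h2, u, h1, h3⟩
  obtain ⟨hj1, v, hj2, hj3⟩ := Nat.find_spec hR
  obtain ⟨hi1, w, hi2, hi3⟩ := Nat.find_spec hD
  have hjm : ∀ u u', u ≤ u' → u' < Nat.find hR → h u' - h u < t := by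
    intro u u' h1 h2
    by_contra hcon
    exact Nat.find_min hR h2 ⟨by omega, u, h1, by omega⟩
  have him : ∀ u u', u ≤ u' → u' < Nat.find hD → h u - h u' < t := by
    intro u u' h1 h2
    by_contra hcon
    exact Nat.find_min hD h2 ⟨by omega, u, h1, by omega⟩
  rcases lt_trichotomy (Nat.find hR) (Nat.find hD) with hlt | heq | hgt
  · obtain ⟨z, hz⟩ := max_of_rise_drop ht hlt hi1 hj2 hj3 hi2 (by omega) him
    exact fun h0 => by
      have := mem_TS.2 (Or.inr hz : TMin h n t z ∨ _)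
      rw [h0] at this
      simp at this
  · exfalso
    rw [← heq] at hi2 hi3 him
    have hv : v ≠ Nat.find hR := by
      intro h0
      rw [← h0] at hj3
      omega
    have hw : w ≠ Nat.find hR := by
      intro h0
      rw [← h0] at hi3
      omega
    rcases le_total v w with h1 | h1
    · have := hjm v w h1 (by omega)
      omega
    · have := him w v h1 (by omega)
      omega
  · obtain ⟨z, hz⟩ := max_of_rise_drop (h := fun u => - h u) ht hgt hj1 hi2 (by omega)
      hj2 (by omega) (fun u u' h1 h2 => by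
        have := hjm u u' h1 h2
        omega)
    simp only [neg_neg] at hz
    exact fun h0 => by
      have := mem_TS.2 (Or.inl hz : TMin h n t z ∨ TMin (fun u => - h u) n t z)
      rw [h0] at this
      simp at this

theorem ZE : ZE_stmt := by
  intro h n t u u' ht hTS hlt hle hr
  have hND : ∀ a b, a ≤ b → b ≤ n → h a - h b < t := by
    intro a b h1 h2
    by_contra hcon
    exact ext_of_rise_drop ht ⟨u, u', hlt.le, hle, hr⟩ ⟨a, b, h1, h2, by omega⟩ hTS
  obtain ⟨m, -, m2, m3, m4⟩ := lastMax (fun u => - h u) (Nat.zero_le n)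
  obtain ⟨M, M1, M2, M3, M4⟩ := firstMax h m2
  have hmM : h m + t ≤ h M := by
    have h1 := m3 u (Nat.zero_le _) (by omega)
    rcases Nat.lt_or_ge u' m with h2 | h2
    · have := hND u' m h2.le m2
      omega
    · have := M3 u' h2 hle
      omega
  refine ⟨m, M, M2, ⟨?_, ?_, ?_, hmM, ?_⟩, M4, ?_, ?_⟩
  · rcases Nat.eq_or_lt_of_le M1 with h1 | h1
    · rw [← h1] at hmM
      omega
    · exact h1
  · intro x h1 h2
    have := m4 x h1 (by omega)
    omega
  · intro x h1 h2
    exact M3 x h1 (by omega)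
  · intro x x' h1 h2 h3
    exact hND x x' h2 (by omega)
  · intro x h1
    have h2 := m3 x (Nat.zero_le _) (by omega)
    have h3 := hND x m h1 m2
    exact ⟨by omega, by omega⟩
  · intro x h1 h2
    have h3 := hND M x h1 h2
    exact ⟨M3 x (by omega) h2, by omega⟩

end Pool.Agent.Helper61.ZZ
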