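import Pool.Agent.Helper61.ZZ.ZC

set_option autoImplicit false

/-!
# The leg after the last extremum (packet ZL)
-/

open Finset
open Pool.Agent.Helper99.ZZ

namespace Pool.Agent.Helper61.ZZ

theorem ZL : ZL_stmt := by
  intro h n t z ht hz hno
  rcases next_of_min ht hz with ⟨-, h2, h3⟩ | ⟨z'', h1, h2, -⟩
  · obtain ⟨s, q, hsz, hzq, hqn, hs1, hq1, hs2, hq2⟩ := hz
    obtain ⟨m, m1, m2, m3, m4⟩ := firstMax h (show z ≤ n by omega)
    have h4 : h z + t ≤ h m := hq1.trans (m3 q hzq.le hqn)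
    have h5 : z < m := by
      rcases Nat.eq_or_lt_of_le m1 with h6 | h6
      · rw [← h6] at h4
        omega
      · exact h6
    refine ⟨m, m2, ⟨h5, fun u k1 k2 => h3 u k1 (by omega), fun u k1 k2 => m3 u k1 (by omega), h4,
      fun u u' k1 k2 k3 => h2 u u' k1 k2 (by omega)⟩, m4, fun u k1 k2 => ⟨m3 u (by omega) k2, ?_⟩⟩
    have := h2 m u m1 k1 k2
    omega
  · exact absurd (mem_TS.2 (Or.inr h1)) (hno z'' h2.lt (tmin_le h1))

end Pool.Agent.Helper61.ZZ
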