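import Pool.Agent.Helper61.ZZ.ZC

set_option autoImplicit false

/-!
# Packets ZN and ZQ
-/

open Finset
open Pool.Agent.Helper99.ZZ

namespace Pool.Agent.Helper61.ZZ

theorem tmin_mono {h : ℕ → ℤ} {n : ℕ} {t t' : ℤ} (htt : t ≤ t') {z : ℕ} (hz : TMin h n t' z) :
    TMin h n t z := by
  obtain ⟨s, s', h1, h2, h3, h4, h5, h6, h7⟩ := hz
  exact ⟨s, s', h1, h2, h3, by omega, by omega, h6, h7⟩

theorem ZN : ZN_stmt := by
  intro h n t t' htt z hz
  rw [mem_TS] at hz ⊢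
  rcases hz with hz | hz
  · exact Or.inl (tmin_mono htt hz)
  · exact Or.inr (tmin_mono htt hz)

end Pool.Agent.Helper61.ZZ
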