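import Pool.Agent.Helper99.ZZ.Zig

set_option autoImplicit false

/-!
# Packet ZQ: the choice of the scale
-/

open Finset
open Pool.Agent.Helper99.ZZ

namespace Pool.Agent.Helper61.ZZ

theorem tele {N : ℕ → ℕ} (hN : Antitone N) {q : ℕ → ℕ} {R : ℕ} (t0 : ℕ)
    (hq : ∀ t, q t + 2 * N (t + R) ≤ 2 * N t) :
    ∑ t ∈ Ico t0 (2 * t0), q t ≤ 2 * (R * N t0) := by
  have h1 : ∑ t ∈ Ico t0 (2 * t0), q t + 2 * ∑ t ∈ Ico t0 (2 * t0), N (t + R) ≤
      2 * ∑ t ∈ Ico t0 (2 * t0), N t := by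
    rw [mul_sum, mul_sum, ← sum_add_distrib]
    exact sum_le_sum fun t _ => hq t
  have h2 : ∑ t ∈ Ico t0 (2 * t0), N (t + R) = ∑ t ∈ Ico (t0 + R) (2 * t0 + R), N t :=
    sum_Ico_add' N t0 (2 * t0) R
  have h3 : ∑ t ∈ Ico t0 (2 * t0), N t ≤ ∑ t ∈ Ico t0 (2 * t0 + R), N t := by
    apply sum_le_sum_of_subset
    intro x hx
    rw [mem_Ico] at hx ⊢
    omega
  have h4 : ∑ t ∈ Ico t0 (2 * t0 + R), N t =
      ∑ t ∈ Ico t0 (t0 + R), N t + ∑ t ∈ Ico (t0 + R) (2 * t0 + R), N t :=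
    (sum_Ico_consecutive N (by omega) (by omega)).symm
  have h5 : ∑ t ∈ Ico t0 (t0 + R), N t ≤ R * N t0 := by
    have : ∑ t ∈ Ico t0 (t0 + R), N t ≤ (Ico t0 (t0 + R)).card • N t0 := by
      apply sum_le_card_nsmul
      intro t ht
      exact hN (mem_Ico.1 ht).1
    rwa [Nat.card_Ico, Nat.add_sub_cancel_left, smul_eq_mul] at this
  omega

theorem ZQ : ZQ_stmt := by
  intro N q hN hq w t0 M ht0 hM
  set f : ℕ → ℝ := fun t => ∑ m ∈ range (M + 1), Real.sqrt ((w : ℝ) / 2 ^ m) * q t (2 ^ m) with hf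
  have hne : (Ico t0 (2 * t0)).Nonempty := ⟨t0, by rw [mem_Ico]; omega⟩
  obtain ⟨t, ht, hmin⟩ := exists_min_image (Ico t0 (2 * t0)) f hne
  refine ⟨t, (mem_Ico.1 ht).1, (mem_Ico.1 ht).2, ?_⟩
  have hsum : f t * t0 ≤ ∑ s ∈ Ico t0 (2 * t0), f s := by
    have h1 : (Ico t0 (2 * t0)).card • f t ≤ ∑ s ∈ Ico t0 (2 * t0), f s :=
      card_nsmul_le_sum _ _ _ fun s hs => hmin s hs
    rw [Nat.card_Ico, show 2 * t0 - t0 = t0 by omega, nsmul_eq_mul] at h1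
    linarith
  refine hsum.trans ?_
  rw [hf]
  simp only
  rw [sum_comm]
  have hw0 : (0 : ℝ) ≤ w := by positivity
  have hterm : ∀ m ∈ range (M + 1), ∑ s ∈ Ico t0 (2 * t0),
      Real.sqrt ((w : ℝ) / 2 ^ m) * (q s (2 ^ m) : ℝ) ≤ 4 * √w * N t0 * (√2) ^ m := by
    intro m _
    rw [← mul_sum]
    have h1 := tele hN (q := fun s => q s (2 ^ m)) (R := 2 ^ m + 1) t0 (fun s => hq s (2 ^ m))
    have h2 : ∑ s ∈ Ico t0 (2 * t0), (q s (2 ^ m) : ℝ) ≤ 4 * (2 : ℝ) ^ m * N t0 := by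
      have h3 : ((∑ s ∈ Ico t0 (2 * t0), q s (2 ^ m) : ℕ) : ℝ) ≤
          ((2 * ((2 ^ m + 1) * N t0) : ℕ) : ℝ) := by exact_mod_cast h1
      push_cast at h3
      refine h3.trans ?_
      have h4 : (1 : ℝ) ≤ 2 ^ m := one_le_pow₀ (by norm_num)
      have h5 : (0 : ℝ) ≤ N t0 := by positivity
      nlinarith
    have h6 : Real.sqrt ((w : ℝ) / 2 ^ m) * 2 ^ m = √w * (√2) ^ m := by
      have h7 : (√2) ^ m * (√2) ^ m = (2 : ℝ) ^ m := by
        rw [← mul_pow, Real.mul_self_sqrt (by norm_num)]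
      have h8 : Real.sqrt ((2 : ℝ) ^ m) = (√2) ^ m := by
        rw [← h7, Real.sqrt_mul_self (by positivity)]
      rw [Real.sqrt_div hw0, h8, ← h7]
      have h9 : (√2) ^ m ≠ 0 := by positivity
      field_simp
    calc Real.sqrt ((w : ℝ) / 2 ^ m) * ∑ s ∈ Ico t0 (2 * t0), (q s (2 ^ m) : ℝ)
        ≤ Real.sqrt ((w : ℝ) / 2 ^ m) * (4 * (2 : ℝ) ^ m * N t0) :=
          mul_le_mul_of_nonneg_left h2 (Real.sqrt_nonneg _)
      _ = 4 * (Real.sqrt ((w : ℝ) / 2 ^ m) * 2 ^ m) * N t0 := by ring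
      _ = 4 * √w * N t0 * (√2) ^ m := by rw [h6]; ring
  refine (sum_le_sum hterm).trans ?_
  rw [← mul_sum]
  have hs2 : √2 * √2 = 2 := Real.mul_self_sqrt (by norm_num)
  have hs2a : 1 < √2 := by
    rw [Real.lt_sqrt (by norm_num)]
    norm_num
  have hs2b : √2 ≤ 1.5 := by
    rw [Real.sqrt_le_left (by norm_num)]
    norm_num
  have hs2c : √2 ≤ 1.4143 := by
    rw [Real.sqrt_le_left (by norm_num)]
    norm_num
  have hgeo : ∑ m ∈ range (M + 1), (√2) ^ m ≤ (√2 + 1) * (√2) ^ (M + 1) := by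
    have h1 := geom_sum_mul (√2) (M + 1)
    have h2 : (∑ m ∈ range (M + 1), (√2) ^ m) * (√2 - 1) ≤ (√2) ^ (M + 1) := by
      rw [h1]
      linarith
    have h3 : (√2 + 1) * (√2 - 1) = 1 := by nlinarith
    calc ∑ m ∈ range (M + 1), (√2) ^ m
        = (√2 + 1) * ((∑ m ∈ range (M + 1), (√2) ^ m) * (√2 - 1)) := by
          linear_combination (-(∑ m ∈ range (M + 1), (√2) ^ m)) * h3
      _ ≤ (√2 + 1) * (√2) ^ (M + 1) := mul_le_mul_of_nonneg_left h2 (by linarith)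
  have hpow : (√2) ^ (M + 1) ≤ 2 * √w := by
    have h1 : (√2) ^ (M + 1) = √((2 : ℝ) ^ (M + 1)) := by
      have h7 : (√2) ^ (M + 1) * (√2) ^ (M + 1) = (2 : ℝ) ^ (M + 1) := by
        rw [← mul_pow, hs2]
      rw [← h7, Real.sqrt_mul_self (by positivity)]
    have h2 : (2 : ℝ) ^ (M + 1) ≤ 4 * w := by
      have : (2 : ℝ) ^ M ≤ 2 * w := by exact_mod_cast hM
      rw [pow_succ]
      linarith
    rw [h1]
    calc √((2 : ℝ) ^ (M + 1)) ≤ √(4 * w) := Real.sqrt_le_sqrt h2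
      _ = 2 * √w := by
        rw [Real.sqrt_mul (by norm_num), show (4 : ℝ) = 2 ^ 2 by norm_num,
          Real.sqrt_sq (by norm_num)]
  have hww : √w * √w = w := Real.mul_self_sqrt hw0
  have hN0 : (0 : ℝ) ≤ N t0 := by positivity
  have hsw : 0 ≤ √(w : ℝ) := Real.sqrt_nonneg _
  calc 4 * √w * N t0 * ∑ m ∈ range (M + 1), (√2) ^ m
      ≤ 4 * √w * N t0 * ((√2 + 1) * (2 * √w)) := by
        apply mul_le_mul_of_nonneg_left _ (by positivity)
        exact hgeo.trans (mul_le_mul_of_nonneg_left hpow (by linarith))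
    _ = 8 * (√2 + 1) * (w * N t0) := by
        linear_combination (8 * (√2 + 1) * N t0) * hww
    _ ≤ 20 * (w * N t0) := by
        apply mul_le_mul_of_nonneg_right _ (by positivity)
        linarith
    _ = 20 * w * N t0 := by ring

end Pool.Agent.Helper61.ZZ
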