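import Pool.Agent.Helper61.ZZ.ZC
import Pool.Agent.Helper61.ZZ.ZN

set_option autoImplicit false

/-!
# Packet ZS: short legs
-/

open Finset
open Pool.Agent.Helper99.ZZ

namespace Pool.Agent.Helper61.ZZ

theorem sn_cases (a i : ℕ) : sn a i = 1 ∨ sn a i = -1 := by
  unfold sn
  exact neg_one_pow_eq_or ℤ (i + a)

theorem sn_succ (a i : ℕ) : sn a (i + 1) = - sn a i := by
  unfold sn
  rw [show i + 1 + a = (i + a) + 1 by ring, pow_succ]
  ring

theorem TS_sn (h : ℕ → ℤ) (n : ℕ) (t : ℤ) (a i : ℕ) : TS (fun u => sn a i * h u) n t = TS h n t := by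
  rcases sn_cases a i with hs | hs
  · rw [hs]
    simp only [one_mul]
  · rw [hs]
    have : (fun u => -1 * h u) = fun u => - h u := by
      funext u
      ring
    rw [this, TS_neg]

/-- A point is not a minimum and a maximum. -/
theorem not_both {h : ℕ → ℤ} {n : ℕ} {t t' : ℤ} {z : ℕ} (h1 : TMin h n t z)
    (h2 : TMin (fun u => - h u) n t' z) : False := by
  obtain ⟨s, s', a1, a2, a3, a4, a5, a6, a7⟩ := h1
  obtain ⟨r, r', b1, b2, b3, b4, b5, b6, b7⟩ := h2
  have h3 := a7 (z + 1) (by omega) (by omega)
  have h4 := b7 (z + 1) (by omega) (by omega)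
  simp only at h4
  omega

/-- A minimum which is an extremum of a higher level is a minimum of this level. -/
theorem tmin_up {h : ℕ → ℤ} {n : ℕ} {t t' : ℤ} {z : ℕ} (h1 : TMin h n t z) (h2 : z ∈ TS h n t') :
    TMin h n t' z := by
  rcases mem_TS.1 h2 with h3 | h3
  · exact h3
  · exact (not_both h1 h3).elim

theorem abs_ge_of {a b c s : ℤ} (hs : s = 1 ∨ s = -1) (h : s * a + c ≤ s * b) : c ≤ |b - a| := by
  rcases hs with hs | hs
  · rw [hs] at h
    have := le_abs_self (b - a)
    omega
  · rw [hs] at h
    have := neg_abs_le (b - a)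
    omega

theorem ZS (hZN : ZN_stmt) (hZC : ZC_stmt) : ZS_stmt := by
  classical
  intro h n t r a K z ht hr hD hK
  have hmono : ∀ i j, i < j → j ≤ K → z i < z j := by
    intro i j hij
    induction j, hij using Nat.le_induction with
    | base => exact fun hj => (hD.up i (by omega)).lt
    | succ j hij ih => exact fun hj => (ih (by omega)).trans (hD.up j (by omega)).lt
  have hinj : Set.InjOn z (Ico 1 K : Finset ℕ) := by
    intro i hi j hj hij
    rw [mem_coe, mem_Ico] at hi hj
    rcases lt_trichotomy i j with h1 | h1 | h1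
    · have := hmono i j h1 hj.2.le
      omega
    · exact h1
    · have := hmono j i h1 hi.2.le
      omega
  set G := (Ico 1 K).filter (fun i => z i ∈ TS h n (t + r)) with hG
  set B := (Ico 1 K).filter (fun i => z i ∉ TS h n (t + r)) with hB
  have hGB : G.card + B.card = (Ico 1 K).card := card_filter_add_card_filter_not _
  have hT : (TS h n t).card = (Ico 1 K).card := by
    rw [hD.ext]
    exact card_image_of_injOn hinj
  have hT' : (TS h n (t + r)).card = G.card := by
    have h1 : TS h n (t + r) = G.image z := by
      ext y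
      rw [mem_image]
      constructor
      · intro hy
        have hy2 : y ∈ TS h n t := hZN h n t (t + r) (by omega) hy
        rw [hD.ext, mem_image] at hy2
        obtain ⟨i, hi, rfl⟩ := hy2
        exact ⟨i, mem_filter.2 ⟨hi, hy⟩, rfl⟩
      · rintro ⟨i, hi, rfl⟩
        exact (mem_filter.1 hi).2
    rw [h1]
    exact card_image_of_injOn fun i hi j hj hij =>
      hinj (mem_coe.2 (mem_filter.1 hi).1) (mem_coe.2 (mem_filter.1 hj).1) hij
  -- the ends of a short leg
  have hkey : ∀ i < K, |h (z (i + 1)) - h (z i)| < t + r → i ∈ B ∨ i + 1 ∈ B := by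
    intro i hi hshort
    by_contra hcon
    push Not at hcon
    obtain ⟨hc1, hc2⟩ := hcon
    have hup := hD.up i hi
    have hbet : ∀ y, z i < y → y < z (i + 1) → y ∉ TS h n (t + r) := by
      intro y h1 h2 hy
      have hy2 : y ∈ TS h n t := hZN h n t (t + r) (by omega) hy
      rw [hD.ext, mem_image] at hy2
      obtain ⟨j, hj, rfl⟩ := hy2
      rw [mem_Ico] at hj
      rcases Nat.lt_or_ge i j with h3 | h3
      · rcases Nat.eq_or_lt_of_le (Nat.succ_le_of_lt h3) with h4 | h4
        · rw [Nat.succ_eq_add_one] at h4
          rw [h4] at h2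
          omega
        · have := hmono (i + 1) j h4 hj.2.le
          omega
      · rcases Nat.eq_or_lt_of_le h3 with h4 | h4
        · rw [h4] at h1
          omega
        · have := hmono j i h4 hi.le
          omega
    have hi1 : 1 ≤ i → z i ∈ TS h n (t + r) := by
      intro h1
      by_contra h2
      exact hc1 (mem_filter.2 ⟨mem_Ico.2 ⟨h1, hi⟩, h2⟩)
    have hi2 : i + 1 < K → z (i + 1) ∈ TS h n (t + r) := by
      intro h1
      by_contra h2
      exact hc2 (mem_filter.2 ⟨mem_Ico.2 ⟨by omega, h1⟩, h2⟩)
    have hge : t + r ≤ |h (z (i + 1)) - h (z i)| := by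
      rcases Nat.eq_zero_or_pos i with h0 | h0
      · -- the first leg
        subst h0
        have h1 := hi2 (by omega)
        have h2 := hD.mm 1 le_rfl (by omega)
        rw [← TS_sn h n (t + r) a 1] at h1
        obtain ⟨s, s', b1, b2, b3, b4, b5, b6, b7⟩ := tmin_up h2 h1
        have hs1 : sn a 1 = - sn a 0 := sn_succ a 0
        simp only [hs1] at b4
        have h3 : sn a 0 * h (z 0) ≤ sn a 0 * h s := by
          rcases Nat.lt_or_ge (z 0) s with h4 | h4
          · exact (hup.lo s h4 b1.le).le
          · exact (hD.pre s h4).1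
        have h5 : sn a 0 * h (z 0) + (t + r) ≤ sn a 0 * h (z 1) := by
          have e1 : -sn a 0 * h (z 1) = -(sn a 0 * h (z 1)) := by ring
          have e2 : -sn a 0 * h s = -(sn a 0 * h s) := by ring
          rw [e1, e2] at b4
          omega
        exact abs_ge_of (sn_cases a 0) h5
      · have h1 := hi1 h0
        have h2 := hD.mm i h0 hi
        rw [← TS_sn h n (t + r) a i] at h1
        have h3 := tmin_up h2 h1
        rcases Nat.lt_or_ge (i + 1) K with h4 | h4
        · have h5 := hi2 h4
          have h6 := ZC_min (h := fun u => sn a i * h u) (z := z i) (z' := z (i + 1))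
            (show 1 ≤ t + r by omega) h3 (by rw [TS_sn]; exact h5) hup.lt
            (fun y k1 k2 => by rw [TS_sn]; exact hbet y k1 k2)
          exact abs_ge_of (sn_cases a i) h6.2.ht
        · -- the last leg
          have hiK : i = K - 1 := by omega
          have hiK' : i + 1 = K := by omega
          obtain ⟨s, s', b1, b2, b3, b4, b5, b6, b7⟩ := h3
          have h7 : sn a i * h s' ≤ sn a i * h (z (i + 1)) := by
            rcases Nat.lt_or_ge (z (i + 1)) s' with h8 | h8
            · have := (hD.post s' (by rw [← hiK']; exact h8.le) b3).1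
              rw [← hiK, ← hiK'] at this
              exact this
            · exact hup.hi s' b2.le h8
          refine abs_ge_of (sn_cases a i) (le_trans b5 h7)
    omega
  have hsub : ((range K).filter (fun i => |h (z (i + 1)) - h (z i)| < t + r)).card ≤
      2 * B.card := by
    have h1 : (range K).filter (fun i => |h (z (i + 1)) - h (z i)| < t + r) ⊆
        B ∪ B.image (fun i => i - 1) := by
      intro i hi
      rw [mem_filter, mem_range] at hi
      rw [mem_union, mem_image]
      rcases hkey i hi.1 hi.2 with h2 | h2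
      · exact Or.inl h2
      · exact Or.inr ⟨i + 1, h2, by omega⟩
    calc _ ≤ (B ∪ B.image (fun i => i - 1)).card := card_le_card h1
      _ ≤ B.card + (B.image (fun i => i - 1)).card := card_union_le _ _
      _ ≤ B.card + B.card := Nat.add_le_add_left card_image_le _
      _ = 2 * B.card := by ring
  omega

end Pool.Agent.Helper61.ZZ
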